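import Pool.Agent.X103.LogStretch

/-!
# MP_e7e597_an, Q1: no energy `W(‖dev₃ log U‖²)` is LH elliptic on `GL⁺(3)`

The proof compares two matrices with `K = 224`.  At `diag(1, e^a, e^{-a})`, `a² = 112`, in the
direction `e₁ ⊗ e₁`, one has `K' = 0` and `K'' = 4/3 > 0`; at `diag(e², e^{-2}, e^{-18})`, in the
direction `ξ ⊗ η` with `ξ = (e, √2/e, 0)`, `η = (e, -√2/e, 0)`, one has `K' = 0` and `K'' < 0`.
-/

set_option autoImplicit false

open Matrix Polynomial Filter Topology Set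

namespace Pool.Agent.Results.MP_e7e597_an.NoEllipticEnergy

open Pool.Agent.X103.LogStretch

/-- `F ↦ W(K(F))` is Legendre-Hadamard elliptic on all of `GL⁺(3)`. -/
def IsLHElliptic (W : ℝ → ℝ) : Prop :=
  ∀ F : M3, 0 < F.det → ∀ ξ η : Fin 3 → ℝ, ξ ≠ 0 → η ≠ 0 →
    0 < deriv (deriv (fun t : ℝ => W (K (F + t • vecMulVec ξ η)))) 0

/-- Second derivative of `W ∘ κ` at a critical point of `κ`. -/
lemma second_deriv {W : ℝ → ℝ} (hW : ContDiffOn ℝ 2 W (Ici 0)) {κ κ' : ℝ → ℝ} {k0 k2 : ℝ}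
    (h0 : κ 0 = k0) (hk : 0 < k0) (h1 : ∀ᶠ t in 𝓝 (0:ℝ), HasDerivAt κ (κ' t) t)
    (h2 : κ' 0 = 0) (h3 : HasDerivAt κ' k2 0) :
    deriv (deriv (fun t => W (κ t))) 0 = deriv W k0 * k2 := by
  have hc : ContinuousAt κ 0 := (h1.self_of_nhds).continuousAt
  have hpos : ∀ᶠ t in 𝓝 (0:ℝ), 0 < κ t := by
    have := hc.eventually (eventually_gt_nhds (show (0:ℝ) < κ 0 by rw [h0]; exact hk))
    exact this
  have hWd : ∀ x : ℝ, 0 < x → ContDiffAt ℝ 2 W x := fun x hx =>
    hW.contDiffAt (Ici_mem_nhds hx)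
  have hfirst : ∀ᶠ t in 𝓝 (0:ℝ), deriv (fun t => W (κ t)) t = deriv W (κ t) * κ' t := by
    filter_upwards [h1, hpos] with t ht1 ht2
    exact (((hWd _ ht2).differentiableAt (by norm_num)).hasDerivAt.comp t ht1).deriv
  rw [EventuallyEq.deriv_eq hfirst]
  have hW' : DifferentiableAt ℝ (deriv W) (κ 0) := by
    rw [h0]
    have h5 : ContDiffAt ℝ 1 (fun x => fderiv ℝ W x) k0 := (hWd _ hk).fderiv_right (by norm_num)
    have h6 : DifferentiableAt ℝ (fun x => fderiv ℝ W x) k0 := h5.differentiableAt (by norm_num)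
    have h7 : DifferentiableAt ℝ (fun x => fderiv ℝ W x 1) k0 := h6.clm_apply (by fun_prop)
    exact h7
  have h8 := (hW'.hasDerivAt.comp (0:ℝ) h1.self_of_nhds).mul h3
  have h9 : HasDerivAt (fun t => deriv W (κ t) * κ' t) (deriv W k0 * k2) 0 :=
    HasDerivAt.congr_deriv h8 (by simp [h2, h0])
  exact h9.deriv

/-! ### The first matrix -/

/-- `a = √112`. -/
noncomputable def aa : ℝ := √112

lemma aa_sq : aa ^ 2 = 112 := Real.sq_sqrt (by norm_num)

noncomputable def F2 : M3 := diagonal ![1, Real.exp aa, Real.exp (-aa)]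

lemma F2_line (t : ℝ) : F2 + t • vecMulVec (Pi.single 0 1 : Fin 3 → ℝ) (Pi.single 0 1) =
    diagonal ![1 + t, Real.exp aa, Real.exp (-aa)] := by
  ext i j
  fin_cases i <;> fin_cases j <;> simp [F2, vecMulVec_apply]

lemma K_F2 {t : ℝ} (ht : -1 < t) :
    K (diagonal ![1 + t, Real.exp aa, Real.exp (-aa)]) = 2 / 3 * Real.log (1 + t) ^ 2 + 224 := by
  have hdet : 0 < (diagonal ![1 + t, Real.exp aa, Real.exp (-aa)]).det := by
    rw [det_diagonal, Fin.prod_univ_three]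
    simp only [cons_val_zero, cons_val_one, cons_val]
    have : 0 < 1 + t := by linarith
    positivity
  have hcp : ((diagonal ![1 + t, Real.exp aa, Real.exp (-aa)])ᵀ *
      diagonal ![1 + t, Real.exp aa, Real.exp (-aa)]).charpoly =
      (X - C ((1 + t) ^ 2)) * (X - C (Real.exp aa ^ 2)) * (X - C (Real.exp (-aa) ^ 2)) := by
    rw [diagonal_transpose, diagonal_mul_diagonal, charpoly_diagonal, Fin.prod_univ_three]
    simp [pow_two]
  rw [K_eq hdet hcp, Real.log_pow, Real.log_pow, Real.log_pow, Real.log_exp, Real.log_exp, q]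
  have := aa_sq
  push_cast
  linear_combination 2 * this

/-! ### The second matrix -/

noncomputable def E : ℝ := Real.exp 2
noncomputable def G : ℝ := Real.exp (-2)

lemma E_pos : 0 < E := Real.exp_pos _
lemma G_pos : 0 < G := Real.exp_pos _
lemma EG : E * G = 1 := by rw [E, G, ← Real.exp_add]; simp

noncomputable def F1 : M3 := diagonal ![E, G, Real.exp (-18)]
noncomputable def ξ : Fin 3 → ℝ := ![Real.exp 1, √2 * Real.exp (-1), 0]
noncomputable def η : Fin 3 → ℝ := ![Real.exp 1, -(√2 * Real.exp (-1)), 0]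

noncomputable def A (t : ℝ) : M3 :=
  !![E * (1 + t), -(√2 * t), 0; √2 * t, G * (1 - 2 * t), 0; 0, 0, Real.exp (-18)]

lemma s2 : √2 * √2 = (2:ℝ) := Real.mul_self_sqrt (by norm_num)

lemma F1_line (t : ℝ) : F1 + t • vecMulVec ξ η = A t := by
  have e1 : Real.exp 1 * Real.exp 1 = E := by rw [E, ← Real.exp_add]; norm_num
  have e2 : Real.exp (-1) * Real.exp (-1) = G := by rw [G, ← Real.exp_add]; norm_num
  have e3 : Real.exp 1 * Real.exp (-1) = 1 := by rw [← Real.exp_add]; simp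
  have h2 := s2
  ext i j
  fin_cases i <;> fin_cases j <;> simp [F1, A, ξ, η]
  · linear_combination t * e1
  · linear_combination √2 * t * e3
  · linear_combination √2 * t * e3
  · linear_combination (-(t * (√2 * √2))) * e2 - t * G * h2

/-- Half of the squared Frobenius norm of the `2 × 2` block. -/
noncomputable def N (t : ℝ) : ℝ := (E ^ 2 * (1 + t) ^ 2 + G ^ 2 * (1 - 2 * t) ^ 2) / 2 + 2 * t ^ 2

noncomputable def cc (t : ℝ) : ℝ := N t / (1 - t)

noncomputable def mm (t : ℝ) : ℝ := Real.arcosh (cc t)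

lemma cc_ge {t : ℝ} (ht : t < 1) : 1 ≤ cc t := by
  rw [cc, le_div_iff₀ (by linarith), N]
  have h := EG
  nlinarith [sq_nonneg (E * (1 + t) - G * (1 - 2 * t))]

lemma det_A (t : ℝ) : (A t).det = (1 - t) * Real.exp (-18) := by
  rw [det_fin_three]
  simp [A]
  have h := EG
  have h2 := s2
  linear_combination ((1 + t) * (1 - 2 * t) * Real.exp (-18)) * h + t ^ 2 * Real.exp (-18) * h2

lemma charpoly_A {t : ℝ} (ht : t < 1) : ((A t)ᵀ * A t).charpoly =
    (X - C (Real.exp (-18) ^ 2)) * (X - C ((1 - t) * Real.exp (mm t))) *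
      (X - C ((1 - t) * Real.exp (-mm t))) := by
  have hsum : (1 - t) * Real.exp (mm t) + (1 - t) * Real.exp (-mm t) = 2 * N t := by
    have h1 := Real.cosh_arcosh (cc_ge ht)
    rw [Real.cosh_eq] at h1
    have h2 : Real.exp (mm t) + Real.exp (-mm t) = 2 * cc t := by
      rw [mm]; linarith
    rw [← mul_add, h2, cc]
    field_simp [show (1 - t) ≠ 0 by linarith]
  have hprod : ((1 - t) * Real.exp (mm t)) * ((1 - t) * Real.exp (-mm t)) = (1 - t) ^ 2 := by
    have : Real.exp (mm t) * Real.exp (-mm t) = 1 := by rw [← Real.exp_add]; simp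
    linear_combination (1 - t) ^ 2 * this
  set b := (1 - t) * Real.exp (mm t)
  set c := (1 - t) * Real.exp (-mm t)
  have hS : (A t)ᵀ * A t = !![E ^ 2 * (1 + t) ^ 2 + 2 * t ^ 2,
      √2 * t * (G * (1 - 2 * t) - E * (1 + t)), 0;
      √2 * t * (G * (1 - 2 * t) - E * (1 + t)), 2 * t ^ 2 + G ^ 2 * (1 - 2 * t) ^ 2, 0;
      0, 0, Real.exp (-18) ^ 2] := by
    have h2 := s2
    ext i j
    fin_cases i <;> fin_cases j <;> simp [A, Matrix.mul_apply, Fin.sum_univ_three] <;>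
      first | ring1 | linear_combination t ^ 2 * h2
  rw [hS]
  set s11 := E ^ 2 * (1 + t) ^ 2 + 2 * t ^ 2 with hs11
  set s22 := 2 * t ^ 2 + G ^ 2 * (1 - 2 * t) ^ 2 with hs22
  set s12 := √2 * t * (G * (1 - 2 * t) - E * (1 + t)) with hs12
  have e1 : s11 + s22 = b + c := by rw [hsum, hs11, hs22, N]; ring
  have e2 : s11 * s22 - s12 ^ 2 = b * c := by
    rw [hprod, hs11, hs22, hs12]
    have h := EG
    have h2 := s2
    have h3 : E ^ 2 * G ^ 2 = 1 := by rw [← mul_pow, h]; ring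
    linear_combination ((1 + t) ^ 2 * (1 - 2 * t) ^ 2) * h3 + (4 * t ^ 2 * (1 + t) * (1 - 2 * t)) * h
      - (t ^ 2 * (G * (1 - 2 * t) - E * (1 + t)) ^ 2) * h2
  have e1' : (C s11 + C s22 : ℝ[X]) = C b + C c := by rw [← C_add, ← C_add, e1]
  have e2' : (C s11 * C s22 - C s12 ^ 2 : ℝ[X]) = C b * C c := by
    rw [← C_mul, ← C_pow, ← C_sub, ← C_mul, e2]
  rw [Matrix.charpoly, det_fin_three]
  simp
  linear_combination (-(X * (X - C (Real.exp (-18)) ^ 2))) * e1' +
    (X - C (Real.exp (-18)) ^ 2) * e2'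

noncomputable def κ (t : ℝ) : ℝ := mm t ^ 2 / 2 + (Real.log (1 - t) + 36) ^ 2 / 6

lemma K_A {t : ℝ} (ht : t < 1) : K (A t) = κ t := by
  have h1 : 0 < 1 - t := by linarith
  have hdet : 0 < (A t).det := by rw [det_A]; positivity
  rw [K_eq hdet (charpoly_A ht), Real.log_mul h1.ne' (Real.exp_pos _).ne',
    Real.log_mul h1.ne' (Real.exp_pos _).ne', Real.log_pow, Real.log_exp, Real.log_exp,
    Real.log_exp, q, κ]
  push_cast
  ring

/-! ### Derivatives along the second line -/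

noncomputable def n1 (t : ℝ) : ℝ := E ^ 2 * (1 + t) - 2 * G ^ 2 * (1 - 2 * t) + 4 * t

lemma hasDerivAt_N (t : ℝ) : HasDerivAt N (n1 t) t := by
  have h1 : HasDerivAt (fun t : ℝ => 1 + t) 1 t := (hasDerivAt_id t).const_add 1
  have h2 : HasDerivAt (fun t : ℝ => 1 - 2 * t) (-2) t := by
    simpa using ((hasDerivAt_id t).const_mul 2).const_sub 1
  have h3 : HasDerivAt (fun t : ℝ => t) 1 t := hasDerivAt_id t
  have h4 := ((((h1.pow 2).const_mul (E ^ 2)).add ((h2.pow 2).const_mul (G ^ 2))).div_const 2).add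
    ((h3.pow 2).const_mul 2)
  refine HasDerivAt.congr_deriv h4 ?_
  simp only [n1]
  push_cast
  ring

noncomputable def c1 (t : ℝ) : ℝ := (n1 t * (1 - t) + N t) / (1 - t) ^ 2

lemma hasDerivAt_one_sub (t : ℝ) : HasDerivAt (fun t : ℝ => 1 - t) (-1) t := by
  simpa using (hasDerivAt_id t).const_sub 1

lemma hasDerivAt_cc {t : ℝ} (ht : t < 1) : HasDerivAt cc (c1 t) t := by
  have h := (hasDerivAt_N t).div (hasDerivAt_one_sub t) (by linarith)
  refine HasDerivAt.congr_deriv h ?_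
  rw [c1]; ring

noncomputable def m1 (t : ℝ) : ℝ := (√(cc t ^ 2 - 1))⁻¹ * c1 t

lemma hasDerivAt_mm {t : ℝ} (ht : t < 1) (hc : 1 < cc t) : HasDerivAt mm (m1 t) t :=
  (Real.hasDerivAt_arcosh hc).comp t (hasDerivAt_cc ht)

noncomputable def κ1 (t : ℝ) : ℝ := mm t * m1 t - (Real.log (1 - t) + 36) / (3 * (1 - t))

lemma hasDerivAt_κ {t : ℝ} (ht : t < 1) (hc : 1 < cc t) : HasDerivAt κ (κ1 t) t := by
  have h1 := hasDerivAt_mm ht hc
  have h2 : HasDerivAt (fun t : ℝ => Real.log (1 - t)) (-1 / (1 - t)) t :=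
    (hasDerivAt_one_sub t).log (by linarith)
  have h3 := ((h1.pow 2).div_const 2).add (((h2.add_const 36).pow 2).div_const 6)
  refine HasDerivAt.congr_deriv h3 ?_
  have : (1 - t) ≠ 0 := by linarith
  simp only [κ1]
  push_cast
  field_simp
  ring

/-- `sinh 4`. -/
noncomputable def sh : ℝ := (E ^ 2 - G ^ 2) / 2

lemma E_sq : E ^ 2 = Real.exp 4 := by rw [E, ← Real.exp_nat_mul]; norm_num
lemma G_sq : G ^ 2 = Real.exp (-4) := by rw [G, ← Real.exp_nat_mul]; norm_num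

lemma sh_eq : sh = Real.sinh 4 := by rw [sh, E_sq, G_sq, Real.sinh_eq]
lemma cc_zero : cc 0 = Real.cosh 4 := by
  rw [cc, N, Real.cosh_eq, ← E_sq, ← G_sq]; ring

lemma sh_pos : 0 < sh := by rw [sh_eq]; exact Real.sinh_pos_iff.2 (by norm_num)

lemma cc_zero_gt : 1 < cc 0 := by rw [cc_zero]; exact Real.one_lt_cosh.2 (by norm_num)

lemma sqrt_zero : √(cc 0 ^ 2 - 1) = sh := by
  rw [cc_zero, sh_eq, Real.cosh_sq, add_sub_cancel_right, Real.sqrt_sq]
  exact (Real.sinh_pos_iff.2 (by norm_num)).le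

lemma mm_zero : mm 0 = 4 := by rw [mm, cc_zero]; exact Real.arcosh_cosh (by norm_num)

lemma c1_zero : c1 0 = 3 * sh := by rw [c1, n1, N, sh]; ring

lemma m1_zero : m1 0 = 3 := by
  rw [m1, sqrt_zero, c1_zero]
  have := sh_pos.ne'
  field_simp

lemma κ1_zero : κ1 0 = 0 := by rw [κ1, mm_zero, m1_zero]; norm_num

lemma κ_zero : κ 0 = 224 := by rw [κ, mm_zero]; norm_num

/-- The derivative of `c1` at `0`. -/
noncomputable def c2 : ℝ := 4 * E ^ 2 + G ^ 2 + 4

lemma hasDerivAt_c1 : HasDerivAt c1 c2 0 := by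
  have h1 : HasDerivAt n1 (E ^ 2 + 4 * G ^ 2 + 4) 0 := by
    have h1 : HasDerivAt (fun t : ℝ => 1 + t) 1 0 := (hasDerivAt_id (0:ℝ)).const_add 1
    have h2 : HasDerivAt (fun t : ℝ => 1 - 2 * t) (-2) 0 := by
      simpa using ((hasDerivAt_id (0:ℝ)).const_mul 2).const_sub 1
    have h3 : HasDerivAt (fun t : ℝ => t) 1 0 := hasDerivAt_id (0:ℝ)
    have h4 := ((h1.const_mul (E ^ 2)).sub (h2.const_mul (2 * G ^ 2))).add (h3.const_mul 4)
    refine HasDerivAt.congr_deriv h4 ?_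
    ring
  have h2 := ((h1.mul (hasDerivAt_one_sub 0)).add (hasDerivAt_N 0)).div
    ((hasDerivAt_one_sub 0).pow 2) (by norm_num)
  refine HasDerivAt.congr_deriv h2 ?_
  simp [c2, n1, N]
  ring

noncomputable def m2 : ℝ := (c2 - 9 * cc 0) / sh

lemma hasDerivAt_m1 : HasDerivAt m1 m2 0 := by
  have h0 : cc 0 ^ 2 - 1 ≠ 0 := by have := cc_zero_gt; nlinarith
  have h1 : HasDerivAt (fun t => √(cc t ^ 2 - 1)) ((2 * cc 0 * c1 0) / (2 * √(cc 0 ^ 2 - 1))) 0 := by
    have h := (((hasDerivAt_cc (zero_lt_one)).pow 2).sub_const 1).sqrt h0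
    refine HasDerivAt.congr_deriv h ?_
    simp
  have h2 := (h1.inv (by rw [sqrt_zero]; exact sh_pos.ne')).mul hasDerivAt_c1
  refine HasDerivAt.congr_deriv h2 ?_
  rw [sqrt_zero, c1_zero, m2]
  have := sh_pos.ne'
  simp only [Pi.inv_apply, sqrt_zero]
  field_simp
  ring

noncomputable def κ2 : ℝ := 9 + 4 * m2 - 35 / 3

lemma hasDerivAt_κ1 : HasDerivAt κ1 κ2 0 := by
  have h1 := (hasDerivAt_mm zero_lt_one cc_zero_gt).mul hasDerivAt_m1
  have h2 : HasDerivAt (fun t : ℝ => Real.log (1 - t)) (-1 / (1 - 0)) 0 :=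
    (hasDerivAt_one_sub 0).log (by norm_num)
  have h3 := (h2.add_const 36).div ((hasDerivAt_one_sub 0).const_mul 3) (by norm_num)
  refine HasDerivAt.congr_deriv (h1.sub h3) ?_
  rw [m1_zero, mm_zero, κ2]
  simp
  norm_num

lemma κ2_neg : κ2 < 0 := by
  have h1 : m2 < 0 := by
    rw [m2]
    apply div_neg_of_neg_of_pos _ sh_pos
    rw [c2, cc, N]
    have h8 : 8 < E ^ 2 := by
      rw [E_sq]
      have := Real.add_one_lt_exp (show (2:ℝ) ≠ 0 by norm_num)
      have h : Real.exp 4 = Real.exp 2 * Real.exp 2 := by rw [← Real.exp_add]; norm_num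
      nlinarith
    nlinarith [sq_nonneg G]
  rw [κ2]; linarith

lemma F1_det : 0 < F1.det := by
  have := det_A 0
  rw [← F1_line, zero_smul, add_zero] at this
  rw [this]; positivity

/-- **Main theorem.** There is no `W ∈ C²([0, ∞))` such that `F ↦ W(‖dev₃ log U‖²)` is
Legendre-Hadamard elliptic on `GL⁺(3)`. -/
theorem result : ¬ ∃ W : ℝ → ℝ, ContDiffOn ℝ 2 W (Ici 0) ∧ IsLHElliptic W := by
  rintro ⟨W, hW, hE⟩
  have hξ : ξ ≠ 0 := by
    intro h
    have := congrFun h 0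
    simp [ξ] at this
  have hη : η ≠ 0 := by
    intro h
    have := congrFun h 0
    simp [η] at this
  -- the second matrix gives `W'(224) < 0`
  have h1 := hE F1 F1_det ξ η hξ hη
  have hev1 : (fun t : ℝ => W (K (F1 + t • vecMulVec ξ η))) =ᶠ[𝓝 0] fun t => W (κ t) := by
    filter_upwards [eventually_lt_nhds (show (0:ℝ) < 1 by norm_num)] with t ht
    rw [F1_line, K_A ht]
  rw [hev1.deriv.deriv_eq] at h1
  have hev2 : ∀ᶠ t in 𝓝 (0:ℝ), HasDerivAt κ (κ1 t) t := by
    have hc : ∀ᶠ t in 𝓝 (0:ℝ), 1 < cc t :=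
      (hasDerivAt_cc zero_lt_one).continuousAt.eventually (eventually_gt_nhds cc_zero_gt)
    filter_upwards [eventually_lt_nhds (show (0:ℝ) < 1 by norm_num), hc] with t ht ht2
    exact hasDerivAt_κ ht ht2
  rw [second_deriv hW κ_zero (by norm_num) hev2 κ1_zero hasDerivAt_κ1] at h1
  have hneg : deriv W 224 < 0 := by
    have := κ2_neg
    by_contra h
    push Not at h
    nlinarith
  -- the first matrix gives `W'(224) > 0`
  have hdet : 0 < F2.det := by
    rw [F2, det_diagonal, Fin.prod_univ_three]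
    simp only [cons_val_zero, cons_val_one, cons_val]
    positivity
  have hs : (Pi.single 0 1 : Fin 3 → ℝ) ≠ 0 := by
    intro h
    have := congrFun h 0
    simp at this
  have h2 := hE F2 hdet (Pi.single 0 1) (Pi.single 0 1) hs hs
  have hev3 : (fun t : ℝ => W (K (F2 + t • vecMulVec (Pi.single 0 1 : Fin 3 → ℝ) (Pi.single 0 1))))
      =ᶠ[𝓝 0] fun t => W (2 / 3 * Real.log (1 + t) ^ 2 + 224) := by
    filter_upwards [eventually_gt_nhds (show (-1:ℝ) < 0 by norm_num)] with t ht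
    rw [F2_line, K_F2 ht]
  rw [hev3.deriv.deriv_eq] at h2
  have hlog : ∀ t : ℝ, -1 < t → HasDerivAt (fun t : ℝ => Real.log (1 + t)) (1 + t)⁻¹ t := by
    intro t ht
    have := ((hasDerivAt_id t).const_add 1).log (by simpa using (by linarith : (1 + t) ≠ 0))
    simpa using this
  have hev4 : ∀ᶠ t in 𝓝 (0:ℝ), HasDerivAt (fun t : ℝ => 2 / 3 * Real.log (1 + t) ^ 2 + 224)
      (4 / 3 * Real.log (1 + t) * (1 + t)⁻¹) t := by
    filter_upwards [eventually_gt_nhds (show (-1:ℝ) < 0 by norm_num)] with t ht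
    refine HasDerivAt.congr_deriv ((((hlog t ht).pow 2).const_mul (2/3)).add_const 224) ?_
    push_cast
    ring
  have h3 : HasDerivAt (fun t : ℝ => 4 / 3 * Real.log (1 + t) * (1 + t)⁻¹) (4 / 3) 0 := by
    have ha := (hlog 0 (by norm_num)).const_mul (4/3)
    have hb : HasDerivAt (fun t : ℝ => (1 + t)⁻¹) (-1 / (1 + 0) ^ 2) 0 :=
      ((hasDerivAt_id (0:ℝ)).const_add 1).inv (by norm_num)
    refine HasDerivAt.congr_deriv (ha.mul hb) ?_
    simp
  rw [second_deriv hW (by simp) (show (0:ℝ) < 224 by norm_num) hev4 (by simp) h3] at h2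
  linarith

end Pool.Agent.Results.MP_e7e597_an.NoEllipticEnergy
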